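import Pool.Agent.H30AV.U8
import Pool.Graph.R_pool_sql_team_seeded_3997aac3.Q130.AV.V0
import Pool.Graph.R_pool_sql_team_seeded_3997aac3.Q130.AV.V4
import Pool.Graph.R_pool_sql_team_seeded_3997aac3.Q130.AV.V5
import Pool.Graph.R_pool_sql_team_seeded_3997aac3.Q130.AV.V7

/-!
# MP_966485_an: no averaged control of any eigenfunction for `γ ≤ 1/2`, on unbounded domains

Q1 is answered in the negative, for all open sets `G ⊆ ℝⁿ`, bounded or not, on which the Dirichlet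
Laplacian has an eigenbasis, for all random diffusivities `α ≥ 0`, for all exponents
`γ ∈ (0, 1/2]`, and for every eigenfunction that does not vanish a.e. off the closure of `G₀`, with
controls that need only be integrable in time.
-/

set_option autoImplicit false

open MeasureTheory Filter Topology Set
open scoped ContDiff InnerProductSpace

namespace Pool.Agent.Results.MP_966485_an.UnboundedDomains

universe w

/-- `ℝⁿ` -/
abbrev Eu (n : ℕ) := EuclideanSpace ℝ (Fin n)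

/-- Lebesgue measure on `G` -/
noncomputable def vol {n : ℕ} (G : Set (Eu n)) : Measure (Eu n) := volume.restrict G

/-- `L²(G)` -/
def HG {n : ℕ} (G : Set (Eu n)) : Type := Lp ℝ 2 (vol G)

noncomputable instance instN {n : ℕ} (G : Set (Eu n)) : NormedAddCommGroup (HG G) :=
  (inferInstance : NormedAddCommGroup (Lp ℝ 2 (vol G)))

noncomputable instance instI {n : ℕ} (G : Set (Eu n)) : InnerProductSpace ℝ (HG G) :=
  (inferInstance : InnerProductSpace ℝ (Lp ℝ 2 (vol G)))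

/-- an element of `L²(G)` as a function -/
noncomputable def fn {n : ℕ} {G : Set (Eu n)} (f : HG G) : Eu n → ℝ :=
  ((show Lp ℝ 2 (vol G) from f) : Eu n → ℝ)

/-- `C_c^∞(G)` -/
def TestIn {n : ℕ} (G : Set (Eu n)) (φ : Eu n → ℝ) : Prop :=
  ContDiff ℝ ∞ φ ∧ HasCompactSupport φ ∧ tsupport φ ⊆ G

/-- `v ∈ H¹₀(G)` with gradient `g`: the closure of the test functions -/
def H10 {n : ℕ} (G : Set (Eu n)) (v : Eu n → ℝ) (g : Eu n → Eu n) : Prop :=
  MemLp v 2 (vol G) ∧ MemLp g 2 (vol G) ∧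
  ∃ φ : ℕ → Eu n → ℝ, (∀ k, TestIn G (φ k)) ∧
    Tendsto (fun k => ∫ x, (φ k x - v x) ^ 2 ∂vol G) atTop (𝓝 0) ∧
    Tendsto (fun k => ∫ x, ‖gradient (φ k) x - g x‖ ^ 2 ∂vol G) atTop (𝓝 0)

/-- `v ∈ H¹₀(G)` (with gradient `g`) is a weak solution of `-Δ v = l v` in `G` -/
def Eig {n : ℕ} (G : Set (Eu n)) (l : ℝ) (v : Eu n → ℝ) (g : Eu n → Eu n) : Prop :=
  H10 G v g ∧ ∀ φ, TestIn G φ →
    ∫ x, ⟪g x, gradient φ x⟫_ℝ ∂vol G = l * ∫ x, v x * φ x ∂vol G

/-- `e` is an orthonormal basis of `L²(G)` of eigenfunctions of the Dirichlet Laplacian, with the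
eigenvalues `lam j > 0` -/
def IsDirichletBasis {n : ℕ} (G : Set (Eu n)) (lam : ℕ → ℝ) (e : HilbertBasis ℕ ℝ (HG G)) : Prop :=
  (∀ j, 0 < lam j) ∧ ∀ j, ∃ g : Eu n → Eu n, Eig G (lam j) (fn (e j)) g

/-- the coefficient `⟪e j, y(T)⟫` of the (mild) solution of `y' + a A^γ y = u`, `y(0) = y₀` -/
noncomputable def coef {n : ℕ} {G : Set (Eu n)} (lam : ℕ → ℝ) (e : HilbertBasis ℕ ℝ (HG G))
    (γ T a : ℝ) (y₀ : HG G) (u : ℝ → HG G) (j : ℕ) : ℝ :=
  Real.exp (-(a * lam j ^ γ * T)) * ⟪e j, y₀⟫_ℝ +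
    ∫ τ in (0 : ℝ)..T, Real.exp (-(a * lam j ^ γ * (T - τ))) * ⟪e j, u τ⟫_ℝ

/-- the control `u ∈ L¹(0, T; L²(G₀))` makes the mean of `y(T, ·; y₀)` vanish -/
def Steers {n : ℕ} {G : Set (Eu n)} (G₀ : Set (Eu n)) (lam : ℕ → ℝ) (e : HilbertBasis ℕ ℝ (HG G))
    (T γ : ℝ) {Ω : Type w} [MeasurableSpace Ω] (P : Measure Ω) (α : Ω → ℝ) (y₀ : HG G)
    (u : ℝ → HG G) : Prop :=
  IntegrableOn u (Icc 0 T) ∧
  (∀ᵐ τ ∂(volume.restrict (Icc 0 T)), ∀ᵐ x ∂vol G, x ∉ G₀ → fn (u τ) x = 0) ∧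
  ∀ j, ∫ o, coef lam e γ T (α o) y₀ u j ∂P = 0

/-- null controllability in average: a constant `C` such that every `y₀ ∈ L²(G)` has a control
`u ∈ L²(0, T; L²(G₀))` with `‖u‖ ≤ C ‖y₀‖` for which the mean of `y(T, ·; y₀)` vanishes -/
def NullControllableInAverage {n : ℕ} {G : Set (Eu n)} (G₀ : Set (Eu n)) (lam : ℕ → ℝ)
    (e : HilbertBasis ℕ ℝ (HG G)) (T γ : ℝ) {Ω : Type w} [MeasurableSpace Ω] (P : Measure Ω)
    (α : Ω → ℝ) : Prop :=
  ∃ C : ℝ, 0 < C ∧ ∀ y₀ : HG G, ∃ u : ℝ → HG G, MemLp u 2 (volume.restrict (Icc 0 T)) ∧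
    Steers G₀ lam e T γ P α y₀ u ∧ ∫ τ in Icc 0 T, ‖u τ‖ ^ 2 ≤ (C * ‖y₀‖) ^ 2

/-- the `j`-th eigenfunction does not vanish almost everywhere in the interior of `G \ closure G₀` -/
def Seen {n : ℕ} {G : Set (Eu n)} (G₀ : Set (Eu n)) (e : HilbertBasis ℕ ℝ (HG G)) (j : ℕ) : Prop :=
  ¬ ∀ᵐ x ∂vol G, x ∈ interior (G \ closure G₀) → fn (e j) x = 0

/-- Let `G` be any open set (bounded or not) with an eigenbasis `e` of the Dirichlet Laplacian,
`G₀ ⊆ G` open with `G \ closure G₀` having an interior point, `T > 0`.  There are `j` such that `e j`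
does not vanish a.e. in the interior of `G \ closure G₀`; and for each such `j`, all random variables
`α ≥ 0` and all `γ ∈ (0, 1/2]` there is no control `u ∈ L¹(0, T; L²(G₀))` at all which makes the mean
of the solution starting from `e j` vanish at time `T`.  In particular the system is not null
controllable in average. -/
theorem result {n : ℕ} (G G₀ : Set (Eu n)) (hG : IsOpen G)
    (hG₀ : IsOpen G₀) (hint : (interior (G \ closure G₀)).Nonempty)
    (lam : ℕ → ℝ) (e : HilbertBasis ℕ ℝ (HG G)) (he : IsDirichletBasis G lam e) (T : ℝ)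
    (hT : 0 < T) :
    (∃ j, Seen G₀ e j) ∧
    ∀ {Ω : Type w} [MeasurableSpace Ω] (P : Measure Ω) [IsProbabilityMeasure P]
      (α : Ω → ℝ), AEMeasurable α P → (∀ o, 0 ≤ α o) → ∀ γ : ℝ, 0 < γ → γ ≤ 1 / 2 →
      (∀ j, Seen G₀ e j → ∀ u : ℝ → HG G, ¬ Steers G₀ lam e T γ P α (e j) u) ∧
      ¬ NullControllableInAverage G₀ lam e T γ P α := by
  have he' : Pool.Agent.Q62.AV.DirBasis G lam e := he
  have hex : ∃ j, Seen G₀ e j := by
    by_contra hcon
    push Not at hcon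
    obtain ⟨x₀, hx₀⟩ := hint
    obtain ⟨R, hR, hRb⟩ := Metric.isOpen_iff.mp isOpen_interior x₀ hx₀
    have hRb' : Metric.ball x₀ R ⊆ G := fun x hx => (interior_subset (hRb hx)).1
    have hmeas : MeasurableSet (Metric.ball x₀ R) := Metric.isOpen_ball.measurableSet
    have hrestr : (volume.restrict G) (Metric.ball x₀ R) = volume (Metric.ball x₀ R) := by
      rw [Measure.restrict_apply hmeas, inter_eq_left.mpr hRb']
    have hfin : (volume.restrict G) (Metric.ball x₀ R) ≠ ⊤ := by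
      rw [hrestr]
      exact measure_ball_lt_top.ne
    let f : Lp ℝ 2 (volume.restrict G) := indicatorConstLp 2 hmeas hfin (1 : ℝ)
    let e' : HilbertBasis ℕ ℝ (Lp ℝ 2 (volume.restrict G)) := e
    have h1 : ∀ j, ⟪e' j, f⟫_ℝ = 0 := by
      intro j
      have h2 : ∀ᵐ x ∂(volume.restrict G), x ∈ interior (G \ closure G₀) →
          ((e' j : Lp ℝ 2 (volume.restrict G)) : Eu n → ℝ) x = 0 := by
        have := hcon j
        unfold Seen at this
        rw [not_not] at this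
        exact this
      rw [L2.inner_def]
      apply integral_eq_zero_of_ae
      filter_upwards [h2, indicatorConstLp_coeFn (p := 2) (hs := hmeas) (hμs := hfin)
        (c := (1 : ℝ))] with x hx1 hx2
      by_cases hx : x ∈ Metric.ball x₀ R
      · rw [hx1 (hRb hx), inner_zero_left]
        rfl
      · rw [hx2, indicator_of_notMem hx, inner_zero_right]
        rfl
    have hf0 : f = 0 := by
      refine e'.repr.injective ?_
      ext j
      rw [map_zero, HilbertBasis.repr_apply_apply, h1 j]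
      rfl
    have h3 : (f : Lp ℝ 2 (volume.restrict G)) =ᵐ[volume.restrict G] 0 := by
      rw [hf0]
      exact Lp.coeFn_zero _ _ _
    have h4 : ∀ᵐ x ∂(volume.restrict G), x ∉ Metric.ball x₀ R := by
      filter_upwards [h3, indicatorConstLp_coeFn (p := 2) (hs := hmeas) (hμs := hfin)
        (c := (1 : ℝ))] with x hx1 hx2 hx3
      rw [hx2, indicator_of_mem hx3] at hx1
      exact one_ne_zero hx1
    rw [ae_iff] at h4
    simp only [not_not, ofPred_mem_eq] at h4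
    rw [hrestr] at h4
    exact (Metric.measure_ball_pos volume x₀ hR).ne' h4
  refine ⟨hex, ?_⟩
  intro Ω _ P _ α hα hα0 γ h0 h1
  have key : ∀ j, Seen G₀ e j → ∀ u : ℝ → HG G, ¬ Steers G₀ lam e T γ P α (e j) u := by
    intro j hj u hu
    exact Pool.Agent.H30AV.t_V8 (@Pool.Agent.Q130.AV.t_V0) (@Pool.Agent.Q130.AV.t_V4)
      (@Pool.Agent.Q130.AV.t_V5) (@Pool.Agent.Q130.AV.t_V7) G G₀ hG hG₀ lam e he' T hT j hj P α
      hα hα0 γ h0 h1 ⟨u, hu.1, hu.2.1, hu.2.2⟩
  refine ⟨key, ?_⟩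
  rintro ⟨C, _, hC⟩
  obtain ⟨j, hj⟩ := hex
  obtain ⟨u, -, hu, -⟩ := hC (e j)
  exact key j hj u hu

end Pool.Agent.Results.MP_966485_an.UnboundedDomains
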